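import Mathlib
import Pool.Agent.MP_242484_co.OffMain

set_option autoImplicit false

namespace Pool.Agent.Results.MP_242484_co.ChoiceAll

/-- Every rational `r ≥ 2` is the strong fractional choice number of a finite graph. -/
theorem result :
  ∀ r : ℚ, (2 : ℚ) ≤ r →
    ∃ n : ℕ, ∃ G : SimpleGraph (Fin n),
      sInf {s : ℝ | ∀ a b : ℕ, 0 < b → s ≤ (a : ℝ) / (b : ℝ) →
        ∀ L : Fin n → Finset ℕ, (∀ v, (L v).card = a) →
          ∃ C : Fin n → Finset ℕ, (∀ v, C v ⊆ L v ∧ (C v).card = b) ∧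
            ∀ u v, G.Adj u v → Disjoint (C u) (C v)} = (r : ℝ) :=
  fun r hr => Pool.Agent.MP_242484_co.exists_graph_choice r hr

end Pool.Agent.Results.MP_242484_co.ChoiceAll
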